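import Pool.Agent.H49.CL.Targets

/-!
# Row PRP of the board cl_modules (MP_6ab439_lc)
-/

set_option autoImplicit false
set_option linter.unusedVariables false

namespace Pool.Agent.H55.CL

open Pool.Agent.H68.BP Pool.Agent.H58.SF Pool.Agent.H53.NR
open Pool.Agent.H57.AR (tp ty Ty)
open Pool.Agent.H57.EQ (Cx)
open Pool.Agent.H44.KR (HB Tyi TpOn)
open Pool.Agent.H44.FB (CptC EmbC)
open Pool.Agent.H72.CH Pool.Agent.H49.CL
open Function

variable {V : Type} {ρ σ : Sig} {𝔹 : Str ρ V} {m : ℕ} {lv : V → V → ℕ}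

theorem tp_iff {V W : Type} {ρ : Sig} {𝔹 : Str ρ V} {x y : W → V} :
    tp 𝔹 x = tp 𝔹 y ↔ (∀ a b, x a = x b ↔ y a = y b) ∧
      ∀ (l : Fin ρ.m) (z : Fin (ρ.ar l) → W), 𝔹 l (fun i => x (z i)) ↔ 𝔹 l (fun i => y (z i)) := by
  constructor
  · intro h
    exact ⟨fun a b => iff_of_eq (congrFun (congrFun (congrArg Prod.fst h) a) b),
      fun l z => iff_of_eq (congrFun (congrFun (congrArg Prod.snd h) l) z)⟩
  · rintro ⟨h1, h2⟩
    exact Prod.ext (funext fun a => funext fun b => propext (h1 a b))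
      (funext fun l => funext fun z => propext (h2 l z))

theorem tp_comp {W W' : Type} {u v : W → V} (h : tp 𝔹 u = tp 𝔹 v) (z : W' → W) :
    tp 𝔹 (fun a => u (z a)) = tp 𝔹 (fun a => v (z a)) :=
  tp_iff.2 ⟨fun a b => (tp_iff.1 h).1 (z a) (z b), fun l w => (tp_iff.1 h).2 l (fun i => z (w i))⟩

theorem tp_pair {W : Type} {x y : W → V} (h : tp 𝔹 x = tp 𝔹 y) (a b : W) :
    tp 𝔹 ![x a, x b] = tp 𝔹 ![y a, y b] := by
  have h1 := tp_comp h ![a, b]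
  have h2 : ∀ u : W → V, (fun i => u ((![a, b] : Fin 2 → W) i)) = ![u a, u b] := by
    intro u; funext i; fin_cases i <;> rfl
  rw [h2, h2] at h1
  exact h1

theorem lv_tp (h : HV 𝔹 m lv) {J : Type} {x y : J → V} (hxy : tp 𝔹 x = tp 𝔹 y) (a b : J) :
    lv (x a) (x b) = lv (y a) (y b) := h.inv ![x a, x b] ![y a, y b] (tp_pair hxy a b)

theorem tpOn_tp {W K : Type} {A : Set W} {x y : W → V} (h : TpOn 𝔹 A x y) (s : K → W)
    (hs : ∀ k, s k ∈ A) : tp 𝔹 (fun k => x (s k)) = tp 𝔹 (fun k => y (s k)) :=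
  tp_iff.2 ⟨fun a b => h.1 (s a) (hs a) (s b) (hs b), fun l z => h.2 l (fun i => s (z i))
    (fun i => hs (z i))⟩

theorem tpOn_pair {W : Type} {A : Set W} {x y : W → V} (h : TpOn 𝔹 A x y) {a b : W}
    (ha : a ∈ A) (hb : b ∈ A) : tp 𝔹 ![x a, x b] = tp 𝔹 ![y a, y b] := by
  have h1 := tpOn_tp h ![a, b] (by intro k; fin_cases k; exact ha; exact hb)
  exact tp_pair h1 0 1

theorem exU_mono {i : ℕ} {R : Set (Ty ρ (Fin 2))} {g : V → V} {U U' : Set V} (h : U ⊆ U')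
    (hg : ExU 𝔹 lv i R g U') : ExU 𝔹 lv i R g U :=
  fun x hx y hy hxy => hg x (h hx) y (h hy) hxy

theorem far_elt (hV : HV 𝔹 m lv) (hA : AmlC 𝔹 lv) (hL : LveC m lv) {h k : ℕ} (hh : h ≤ m)
    (y : Fin (k + 1) → V) : ∃ t : V, h ≤ lv t (y 0) ∧ ∀ a, lv t (y a) ≤ h := by
  classical
  obtain ⟨x0, x1, hx⟩ := hL h hh
  obtain ⟨x', h1, h2, h3⟩ := hA (Fin 2) {1} ![x0, x1] (fun _ => y 0) (Finset.univ.image y) (by
    constructor
    · rintro a ha b hb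
      rw [Set.mem_singleton_iff.1 ha, Set.mem_singleton_iff.1 hb]
      exact ⟨fun _ => rfl, fun _ => rfl⟩
    · intro l z hz
      have e1 : (fun i => (![x0, x1] : Fin 2 → V) (z i)) = fun _ => x1 := by
        funext i
        rw [Set.mem_singleton_iff.1 (hz i)]
        rfl
      rw [e1]
      have h4 := congrFun (hV.one x1 (y 0)) l
      exact iff_of_eq h4)
  have h5 : lv (x' 0) (x' 1) = h := by rw [lv_tp hV h1 0 1]; exact hx
  have h6 : x' 1 = y 0 := h2 1 rfl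
  refine ⟨x' 0, ?_, fun a => ?_⟩
  · rw [← h6, h5]
  · by_contra hc
    push Not at hc
    obtain ⟨b, hb, hb1, hb2⟩ := h3 0 (y a) (Finset.mem_image_of_mem y (Finset.mem_univ a)) (h + 1)
      (by omega) hc
    rw [Set.mem_singleton_iff.1 hb] at hb1
    have h7 : h + 1 ≤ lv x0 x1 := hb1
    omega

theorem pf_PRP : T_PRP := by
  intro V ρ σ 𝔹 m lv 𝔸 i h R hV hT hC hA hL hCrs hSC hhi him k y hy
  classical
  have _hc : Countable V := hV.cnt
  obtain ⟨t0, ht0, ht0'⟩ := far_elt hV hA hL (by omega : h ≤ m) y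
  by_contra hcon
  -- the failure for every finite set
  let ry : Finset V := Finset.univ.image y
  have hry : ∀ a, y a ∈ ry := fun a => Finset.mem_image_of_mem y (Finset.mem_univ a)
  have hfail : ∀ Y : Finset V, ∃ (g : V → V) (z' : {x // x ∈ Y ∪ ry ∪ {t0}} → V), IsHom 𝔸 𝔸 g ∧
      tp 𝔹 z' = tp 𝔹 (fun t : {x // x ∈ Y ∪ ry ∪ {t0}} => (t : V)) ∧
      ExU 𝔹 lv i R g {x | ∃ t, x = z' t ∧ lv (t : V) (y 0) < h} ∧
      ExU 𝔹 lv i R g {x | ∃ t ∈ {t : {x // x ∈ Y ∪ ry ∪ {t0}} | h ≤ lv (t : V) (y 0) ∧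
        ∀ a, lv (t : V) (y a) ≤ h}, x = z' t} ∧
      ¬ ExU 𝔹 lv i R g {x | ∃ a, x = z' ⟨y a, by
        simp only [Finset.mem_union]; exact Or.inl (Or.inr (hry a))⟩} := by
    intro Y
    by_contra hY
    push Not at hY
    refine hcon ⟨{x // x ∈ Y ∪ ry ∪ {t0}}, inferInstance, fun t => (t : V), fun a => ⟨y a, by
        simp only [Finset.mem_union]; exact Or.inl (Or.inr (hry a))⟩,
      {t | h ≤ lv (t : V) (y 0) ∧ ∀ a, lv (t : V) (y a) ≤ h}, fun a => rfl,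
      ⟨⟨t0, by simp⟩, ht0, ht0'⟩, fun t ht => ht, fun g z' hg hz' h1 h2 => hY g z' hg hz' h1 h2⟩
  let S : Finset V → (V → V) → Prop := fun Y f =>
    (∀ (l : Fin σ.m) (w : Fin (σ.ar l) → V), (∀ j, w j ∈ Y) → 𝔸 l w → 𝔸 l (fun j => f (w j))) ∧
    (∀ x ∈ Y, ∀ x' ∈ Y, lv x (y 0) < h → lv x' (y 0) < h → tp 𝔹 ![x, x'] ∈ R →
      (i ≤ lv (f x) (f x') ↔ i ≤ lv x x')) ∧
    (∀ x ∈ Y, ∀ x' ∈ Y, (h ≤ lv x (y 0) ∧ ∀ a, lv x (y a) ≤ h) →
      (h ≤ lv x' (y 0) ∧ ∀ a, lv x' (y a) ≤ h) → tp 𝔹 ![x, x'] ∈ R →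
      (i ≤ lv (f x) (f x') ↔ i ≤ lv x x')) ∧
    ((∀ a, y a ∈ Y) → ∃ a b, tp 𝔹 ![y a, y b] ∈ R ∧
      ¬ (i ≤ lv (f (y a)) (f (y b)) ↔ i ≤ lv (y a) (y b)))
  obtain ⟨f, -, hf⟩ := hC V ∅ id S (by
    intro Y
    obtain ⟨g, z', hg, hz', h1, h2, h3⟩ := hfail Y
    have hin : ∀ x ∈ Y, x ∈ Y ∪ ry ∪ {t0} := fun x hx => by
      simp only [Finset.mem_union]; exact Or.inl (Or.inl hx)
    have hin2 : ∀ a, y a ∈ Y ∪ ry ∪ {t0} := fun a => by
      simp only [Finset.mem_union]; exact Or.inl (Or.inr (hry a))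
    let F : V → V := fun v => if hv : v ∈ Y ∪ ry ∪ {t0} then g (z' ⟨v, hv⟩) else t0
    have hF : ∀ v (hv : v ∈ Y ∪ ry ∪ {t0}), F v = g (z' ⟨v, hv⟩) := fun v hv => dif_pos hv
    refine ⟨F, ⟨?_, ?_, ?_, ?_⟩, fun x hx => absurd hx (Finset.notMem_empty x)⟩
    · intro l w hw hAw
      have e1 : (fun j => F (w j)) = fun j => g (z' ⟨w j, hin _ (hw j)⟩) := by
        funext j; exact hF _ _
      rw [e1]
      have e2 : 𝔸 l (fun j => z' ⟨w j, hin _ (hw j)⟩) := by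
        refine hT l w _ hAw ?_
        exact tp_comp hz' (fun j => ⟨w j, hin _ (hw j)⟩)
      exact hg l _ e2
    · intro x hx x' hx' hl hl' hR
      rw [hF x (hin x hx), hF x' (hin x' hx')]
      have e1 := tp_pair hz' ⟨x, hin x hx⟩ ⟨x', hin x' hx'⟩
      have e2 := lv_tp hV hz' ⟨x, hin x hx⟩ ⟨x', hin x' hx'⟩
      have e3 := h1 (z' ⟨x, hin x hx⟩) ⟨_, rfl, hl⟩ (z' ⟨x', hin x' hx'⟩) ⟨_, rfl, hl'⟩
        (by rw [e1]; exact hR)
      rw [e2] at e3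
      exact e3
    · intro x hx x' hx' hl hl' hR
      rw [hF x (hin x hx), hF x' (hin x' hx')]
      have e1 := tp_pair hz' ⟨x, hin x hx⟩ ⟨x', hin x' hx'⟩
      have e2 := lv_tp hV hz' ⟨x, hin x hx⟩ ⟨x', hin x' hx'⟩
      have e3 := h2 (z' ⟨x, hin x hx⟩) ⟨_, hl, rfl⟩ (z' ⟨x', hin x' hx'⟩) ⟨_, hl', rfl⟩
        (by rw [e1]; exact hR)
      rw [e2] at e3
      exact e3
    · intro _
      by_contra hc
      push Not at hc
      refine h3 ?_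
      rintro _ ⟨a, rfl⟩ _ ⟨b, rfl⟩ hR
      have e1 := tp_pair hz' ⟨y a, hin2 a⟩ ⟨y b, hin2 b⟩
      have e2 := lv_tp hV hz' ⟨y a, hin2 a⟩ ⟨y b, hin2 b⟩
      rw [e1] at hR
      have e3 := hc a b hR
      rw [hF _ (hin2 a), hF _ (hin2 b)] at e3
      rw [e2]
      exact e3) (by
    rintro Y Y' F hYY ⟨h1, h2, h3, h4⟩
    exact ⟨fun l w hw => h1 l w (fun j => hYY (hw j)),
      fun x hx x' hx' => h2 x (hYY hx) x' (hYY hx'),
      fun x hx x' hx' => h3 x (hYY hx) x' (hYY hx'), fun ha => h4 (fun a => hYY (ha a))⟩) (by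
    rintro Y F F' ⟨h1, h2, h3, h4⟩ hFF
    have hlv : ∀ x ∈ Y, ∀ x' ∈ Y, lv (F' x) (F' x') = lv (F x) (F x') := by
      intro x hx x' hx'
      have e := hV.inv _ _ (tpOn_pair hFF (Finset.mem_coe.2 hx) (Finset.mem_coe.2 hx'))
      exact e.symm
    refine ⟨?_, ?_, ?_, ?_⟩
    · intro l w hw hAw
      refine hT l _ _ (h1 l w hw hAw) ?_
      exact (tpOn_tp hFF w (fun j => Finset.mem_coe.2 (hw j))).symm
    · intro x hx x' hx' hl hl' hR
      rw [hlv x hx x' hx']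
      exact h2 x hx x' hx' hl hl' hR
    · intro x hx x' hx' hl hl' hR
      rw [hlv x hx x' hx']
      exact h3 x hx x' hx' hl hl' hR
    · intro ha
      obtain ⟨a, b, hab, hab'⟩ := h4 ha
      refine ⟨a, b, hab, ?_⟩
      rw [hlv _ (ha a) _ (ha b)]
      exact hab')
  have hfh : IsHom 𝔸 𝔸 f := by
    intro l w hw
    exact (hf (Finset.univ.image w)).1 l w
      (fun j => Finset.mem_image_of_mem w (Finset.mem_univ j)) hw
  have hOut : ExU 𝔹 lv i R f (Out lv h (y 0)) := by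
    intro x hx x' hx' hR
    exact (hf {x, x'}).2.1 x (by simp) x' (by simp) hx hx' hR
  have hIn : ExU 𝔹 lv i R f (Cl lv h (y 0) ∩ Off lv (h + 1) ry) := by
    intro x hx x' hx' hR
    exact (hf {x, x'}).2.2.1 x (by simp) x' (by simp)
      ⟨hx.1, fun a => Nat.lt_succ_iff.1 (hx.2 _ (hry a))⟩
      ⟨hx'.1, fun a => Nat.lt_succ_iff.1 (hx'.2 _ (hry a))⟩ hR
  have hU := hCrs (h + 1) (y 0) ry ∅ f (by omega) (by omega) hfh hIn
    (exU_mono (fun x hx => hx.1) hOut)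
  have hOff : ExU 𝔹 lv i R f (Off lv (h + 1) ry) := by
    refine exU_mono (fun x hx => ?_) hU
    by_cases hc : h ≤ lv x (y 0)
    · exact Or.inl ⟨hc, hx⟩
    · exact Or.inr ⟨not_le.1 hc, fun q hq => absurd hq (Finset.notMem_empty q)⟩
  have hAll := hSC ry f hfh hOff
  obtain ⟨a, b, hab, hab'⟩ := (hf ry).2.2.2 hry
  exact hab' (hAll (y a) trivial (y b) trivial hab)

end Pool.Agent.H55.CL
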