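import Pool.Agent.H49.CL.Targets

/-!
# Row RLR of the board cl_modules (MP_6ab439_lc)
-/

set_option autoImplicit false
set_option linter.unusedVariables false

namespace Pool.Agent.H55.CL.RL

open Pool.Agent.H68.BP Pool.Agent.H58.SF Pool.Agent.H53.NR
open Pool.Agent.H57.AR (tp ty Ty)
open Pool.Agent.H57.EQ (Cx)
open Pool.Agent.H44.KR (HB Tyi TpOn)
open Pool.Agent.H44.FB (CptC EmbC)
open Pool.Agent.H72.CH Pool.Agent.H49.CL
open Function

theorem tp_iff {V W : Type} {ρ : Sig} {𝔹 : Str ρ V} {x y : W → V} :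
    tp 𝔹 x = tp 𝔹 y ↔ (∀ a b, x a = x b ↔ y a = y b) ∧
      ∀ (l : Fin ρ.m) (z : Fin (ρ.ar l) → W), 𝔹 l (fun i => x (z i)) ↔ 𝔹 l (fun i => y (z i)) := by
  constructor
  · intro h
    exact ⟨fun a b => iff_of_eq (congrFun (congrFun (congrArg Prod.fst h) a) b),
      fun l z => iff_of_eq (congrFun (congrFun (congrArg Prod.snd h) l) z)⟩
  · rintro ⟨h1, h2⟩
    exact Prod.ext (funext fun a => funext fun b => propext (h1 a b))
      (funext fun l => funext fun z => propext (h2 l z))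

section basics

variable {V : Type} {ρ : Sig} {𝔹 : Str ρ V} {m : ℕ} {lv : V → V → ℕ}

theorem tp_comp {W W' : Type} {u v : W → V} (h : tp 𝔹 u = tp 𝔹 v) (z : W' → W) :
    tp 𝔹 (fun a => u (z a)) = tp 𝔹 (fun a => v (z a)) :=
  tp_iff.2 ⟨fun a b => (tp_iff.1 h).1 (z a) (z b), fun l w => (tp_iff.1 h).2 l (fun i => z (w i))⟩

theorem tp_pair {W : Type} {x y : W → V} (h : tp 𝔹 x = tp 𝔹 y) (a b : W) :
    tp 𝔹 ![x a, x b] = tp 𝔹 ![y a, y b] := by
  have h1 := tp_comp h ![a, b]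
  have h2 : ∀ u : W → V, (fun i => u ((![a, b] : Fin 2 → W) i)) = ![u a, u b] := by
    intro u; funext i; fin_cases i <;> rfl
  rw [h2, h2] at h1
  exact h1

theorem lv_tp (h : HV 𝔹 m lv) {J : Type} {x y : J → V} (hxy : tp 𝔹 x = tp 𝔹 y) (a b : J) :
    lv (x a) (x b) = lv (y a) (y b) := h.inv ![x a, x b] ![y a, y b] (tp_pair hxy a b)

theorem tpOn_tp {W K : Type} {A : Set W} {x y : W → V} (h : TpOn 𝔹 A x y) (s : K → W)
    (hs : ∀ k, s k ∈ A) : tp 𝔹 (fun k => x (s k)) = tp 𝔹 (fun k => y (s k)) :=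
  tp_iff.2 ⟨fun a b => h.1 (s a) (hs a) (s b) (hs b), fun l z => h.2 l (fun i => s (z i))
    (fun i => hs (z i))⟩

theorem ty_of_tp {W : Type} {x y : W → V} (h : tp 𝔹 x = tp 𝔹 y) (a : W) :
    ty 𝔹 (x a) = ty 𝔹 (y a) :=
  funext fun l => propext ((tp_iff.1 h).2 l (fun _ => a))

end basics

section names

variable {V N : Type} {ρ δ : Sig} {𝔹 : Str ρ V} {m : ℕ} {lv : V → V → ℕ}
  {𝔻 : Str δ N} {st : N → Fin m} {β : (Fin m → N) → V}

/-- representatives of the classes -/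
theorem reps {n : ℕ} (hP : PLev m lv) (z : Fin n → V) : ∃ r : Fin m → Fin n → Fin n,
    ∀ i c d, r i c = r i d ↔ (i : ℕ) < lv (z c) (z d) := by
  classical
  let S : Fin m → Fin n → Set (Fin n) := fun i c => {d | (i : ℕ) < lv (z c) (z d)}
  have hS : ∀ i c, (S i c).Nonempty := fun i c => ⟨c, by
    change (i : ℕ) < lv (z c) (z c)
    rw [hP.self]; exact i.2⟩
  let R : Set (Fin n) → Fin n → Fin n := fun T c => if h : T.Nonempty then h.some else c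
  have hR : ∀ (T : Set (Fin n)) (h : T.Nonempty) (c : Fin n), R T c = h.some :=
    fun T h c => dif_pos h
  have hu : ∀ (i : Fin m) (a b c : Fin n), (i : ℕ) < lv (z a) (z b) → (i : ℕ) < lv (z b) (z c) →
      (i : ℕ) < lv (z a) (z c) := fun i a b c h1 h2 =>
    lt_of_lt_of_le (lt_min h1 h2) (hP.ult _ _ _)
  refine ⟨fun i c => R (S i c) c, fun i c d => ?_⟩
  dsimp only
  rw [hR _ (hS i c), hR _ (hS i d)]
  constructor
  · intro h
    have h1 : (i : ℕ) < lv (z c) (z (hS i c).some) := (hS i c).some_mem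
    have h2 : (i : ℕ) < lv (z d) (z (hS i d).some) := (hS i d).some_mem
    rw [← h, hP.sym] at h2
    exact hu i _ _ _ h1 h2
  · intro h
    have h1 : S i c = S i d := by
      ext e
      exact ⟨fun h2 => hu i _ _ _ (by rw [hP.sym]; exact h) h2, fun h2 => hu i _ _ _ h h2⟩
    congr 1

theorem names0 (hV : HV 𝔹 m lv) (hX : NexC 𝔹 m lv st β) {n : ℕ} (z : Fin n → V) :
    ∃ f : Fin n → Fin m → N, (∀ c i, st (f c i) = i) ∧
      (∀ c d (i : Fin m), f c i = f d i ↔ (i : ℕ) < lv (z c) (z d)) ∧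
      tp 𝔹 (fun c => β (f c)) = tp 𝔹 z := by
  classical
  obtain ⟨v₀⟩ := hV.ne
  have hP := hV.lev.pl
  obtain ⟨r, hr⟩ := reps hP z
  let s : Fin m × Fin n → Fin m := Prod.fst
  let w : Fin n → Fl s := fun c => ⟨fun i => (i, r i c), fun i => rfl⟩
  have hw : ∀ c d (i : Fin m), (w c).1 i = (w d).1 i ↔ (i : ℕ) < lv (z c) (z d) := by
    intro c d i
    rw [← hr i c d]
    exact ⟨fun h => congrArg Prod.snd h, fun h => by
      change ((i, r i c) : Fin m × Fin n) = (i, r i d)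
      rw [h]⟩
  have hagr : ∀ c d (j : ℕ), j ≤ m → (Agr j (w c).1 (w d).1 ↔ j ≤ lv (z c) (z d)) := by
    intro c d j hj
    constructor
    · intro h
      rcases j with _ | j
      · exact Nat.zero_le _
      · exact (hw c d ⟨j, hj⟩).1 (h ⟨j, hj⟩ (Nat.lt_succ_self j))
    · intro h i hi
      exact (hw c d i).2 (lt_of_lt_of_le hi h)
  let g : Fl s → V := fun f => if h : ∃ c, w c = f then z h.choose else v₀
  have hg : ∀ c, g (w c) = z c := by
    intro c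
    have h : ∃ c', w c' = w c := ⟨c, rfl⟩
    have h1 : g (w c) = z h.choose := dif_pos h
    rw [h1]
    apply hV.lev.eq
    refine le_antisymm (hP.le _ _) ?_
    rw [← hagr _ _ m le_rfl, h.choose_spec]
    exact fun i _ => rfl
  obtain ⟨x, hx1, hx2, hx3⟩ := hX (Fin m × Fin n) s (Set.range w) g Unit (fun _ => Set.range w)
    (by
      rintro _ ⟨c, rfl⟩ _ ⟨d, rfl⟩ j hj hA
      rw [hg, hg]
      exact (hagr c d j hj).1 hA)
    (fun _ => subset_rfl)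
    (by
      rintro _ _ ⟨c, rfl⟩ _ ⟨d, rfl⟩ j hj hA
      rw [hg, hg] at hA
      exact (hagr c d j hj).2 hA)
  refine ⟨fun c i => x ((w c).1 i), fun c i => hx2 _, fun c d i => ?_, ?_⟩
  · rw [← hw c d i]
    exact hx1.eq_iff
  · have h1 := tpOn_tp (hx3 ()) w (fun c => ⟨c, rfl⟩)
    have h2 : (fun k => g (w k)) = z := funext hg
    rw [h2] at h1
    exact h1.symm

theorem emb_ty {ε : N → N} (hε : ∀ (J : Type) (a : J → N), tp 𝔻 (fun j => ε (a j)) = tp 𝔻 a)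
    (p : N) : ty 𝔻 (ε p) = ty 𝔻 p :=
  ty_of_tp (hε Unit (fun _ => p)) ()

theorem emb_inj {ε : N → N} (hε : ∀ (J : Type) (a : J → N), tp 𝔻 (fun j => ε (a j)) = tp 𝔻 a)
    (p q : N) : ε p = ε q ↔ p = q := by
  have h := (tp_iff.1 (hε Bool (fun b => if b then p else q))).1 true false
  simpa using h

theorem names (hV : HV 𝔹 m lv) (hN : Nm 𝔹 m lv 𝔻 st β) (hED : EmbC 𝔻) (hX : NexC 𝔹 m lv st β)
    {n : ℕ} (z : Fin n → V) (u : Fin n) (π : Fl st) :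
    ∃ f : Fin n → Fin m → N, (∀ c i, st (f c i) = i) ∧
      (∀ c d (i : Fin m), f c i = f d i ↔ (i : ℕ) < lv (z c) (z d)) ∧
      tp 𝔹 (fun c => β (f c)) = tp 𝔹 z ∧ f u = π.1 := by
  obtain ⟨f, h1, h2, h3⟩ := names0 hV hX z
  obtain ⟨ε, hε, hε'⟩ := hED (Fin m) (f u) π.1 (hN.flg ⟨f u, h1 u⟩ π)
  refine ⟨fun c i => ε (f c i), fun c i => ?_, fun c d i => ?_, ?_, funext hε'⟩
  · rw [(hN.srt _ _).1 (emb_ty hε (f c i)), h1]
  · rw [emb_inj hε, h2]
  · rw [← h3]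
    exact (hN.inv (Fin n × Fin m) (fun p => f p.1 p.2) (fun p => ε (f p.1 p.2))
      (hε _ _).symm (Fin n) (fun c i => (c, i)) (fun c i => h1 c i)).symm

theorem pf_RLR : T_RLR := by
  intro V N ρ δ 𝔹 m lv 𝔻 st β hV hN hEB hED hX hC i h g p₀ hh
  classical
  have hP := hV.lev.pl
  obtain ⟨fπ, hπ, -, -⟩ := names0 hV hX (fun _ : Fin 1 => p₀)
  let π : Fl st := ⟨fπ 0, hπ 0⟩
  obtain ⟨η, hη, hη'⟩ := hEB Unit (fun _ => β π.1) (fun _ => p₀) (tp_iff.2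
    ⟨fun _ _ => ⟨fun _ => rfl, fun _ => rfl⟩, fun l w =>
      iff_of_eq (congrFun (hV.one (β π.1) p₀) l)⟩)
  have hηp : η (β π.1) = p₀ := hη' ()
  have hηlv : ∀ a b, lv (η a) (η b) = lv a b := by
    intro a b
    have h1 := lv_tp hV (hη Bool (fun t => if t then a else b)) true false
    simpa using h1
  by_contra hcon
  push Not at hcon
  choose n z u hz using hcon
  choose f hf1 hf2 hf3 hf4 using fun κ => names hV hN hED hX (z κ) (u κ) π
  let J : Finset N := (Finset.range (m + 2)).biUnion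
    (fun κ => Finset.univ.image (fun p : Fin (n κ) × Fin m => f κ p.1 p.2))
  have hJ : ∀ κ, κ ≤ m + 1 → ∀ c l, f κ c l ∈ J := by
    intro κ hκ c l
    refine Finset.mem_biUnion.2 ⟨κ, Finset.mem_range.2 (by omega), ?_⟩
    exact Finset.mem_image.2 ⟨(c, l), Finset.mem_univ _, rfl⟩
  let ψ : (Fin m → N) → V := fun a => g (η (β a))
  obtain ⟨φ, hφ1, hφ2, hφ3⟩ := hC V lv hP ψ π h J
  -- the threshold
  let T : Set ℕ := {l | l = m + 1 ∨ (l ≤ m ∧ ∃ a b : Fl st, (∀ k, a.1 k ∈ J ∧ b.1 k ∈ J) ∧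
    Agr h π.1 a.1 ∧ Agr h π.1 b.1 ∧ (∀ k : Fin m, a.1 k = b.1 k ↔ (k : ℕ) < l) ∧
    i ≤ lv (ψ (fun k => φ (a.1 k))) (ψ (fun k => φ (b.1 k))))}
  have hT : T.Nonempty := ⟨m + 1, Or.inl rfl⟩
  let κ : ℕ := sInf T
  have hκT : κ ∈ T := Nat.sInf_mem hT
  have hκ : κ ≤ m + 1 := Nat.sInf_le (Or.inl rfl)
  have hthr : ∀ (l : ℕ) (a b : Fl st), l ≤ m → (∀ k, a.1 k ∈ J ∧ b.1 k ∈ J) →
      Agr h π.1 a.1 → Agr h π.1 b.1 → (∀ k : Fin m, a.1 k = b.1 k ↔ (k : ℕ) < l) →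
      (i ≤ lv (ψ (fun k => φ (a.1 k))) (ψ (fun k => φ (b.1 k))) ↔ κ ≤ l) := by
    intro l a b hl hab ha hb hpat
    constructor
    · intro hrel
      exact Nat.sInf_le (Or.inr ⟨hl, a, b, hab, ha, hb, hpat, hrel⟩)
    · intro hkl
      rcases hκT with h1 | ⟨h1, a', b', hab', ha', hb', hpat', hrel'⟩
      · omega
      · refine hrel'.trans (hφ3 κ a' b' a b (fun k => ⟨(hab' k).1, (hab' k).2, (hab k).1,
          (hab k).2⟩) ha' hb' ha hb hh h1 hpat' ?_)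
        intro k hk
        exact (hpat k).2 (lt_of_lt_of_le hk hkl)
  have hφty : ∀ p ∈ J, st (φ p) = st p := by
    intro p hp
    have h1 := tpOn_tp hφ1 (fun _ : Unit => p) (fun _ => hp)
    exact ((hN.srt _ _).1 (ty_of_tp h1 ())).symm
  have hπJ : ∀ k, π.1 k ∈ J := by
    intro k
    have h1 := hJ κ hκ (u κ) k
    rw [hf4] at h1
    exact h1
  -- the copy
  let z' : Fin (n κ) → V := fun c => η (β (fun k => φ (f κ c k)))
  have htp : tp 𝔹 z' = tp 𝔹 (z κ) := by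
    have h1 : tp 𝔹 z' = tp 𝔹 (fun c => β (fun k => φ (f κ c k))) := hη _ _
    rw [h1, ← hf3 κ]
    exact (hN.inv (Fin (n κ) × Fin m) (fun p => f κ p.1 p.2) (fun p => φ (f κ p.1 p.2))
      (tpOn_tp hφ1 (fun p : Fin (n κ) × Fin m => f κ p.1 p.2) (fun p => hJ κ hκ _ _))
      (Fin (n κ)) (fun c k => (c, k)) (fun c k => hf1 κ c k)).symm
  have hbase : h ≤ lv (z' (u κ)) p₀ := by
    rw [← hηp]
    change h ≤ lv (η (β (fun k => φ (f κ (u κ) k)))) (η (β π.1))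
    rw [hηlv, hf4 κ]
    have hflag : ∀ k, st (φ (π.1 k)) = k := fun k => by rw [hφty _ (hπJ k), π.2 k]
    refine (hN.lev ⟨fun k => φ (π.1 k), hflag⟩ π h hh).2 ?_
    intro k hk
    exact hφ2 k hk (hπJ k)
  obtain ⟨a, b, ha, hb, hne⟩ := hz κ z' htp hbase
  have hAg : ∀ c, h ≤ lv (z κ c) (z κ (u κ)) → Agr h π.1 (f κ c) := by
    intro c hc k hk
    rw [← hf4 κ]
    exact (hf2 κ (u κ) c k).2 (lt_of_lt_of_le hk (by rw [hP.sym]; exact hc))
  have hfin := hthr (lv (z κ a) (z κ b)) ⟨f κ a, hf1 κ a⟩ ⟨f κ b, hf1 κ b⟩ (hP.le _ _)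
    (fun k => ⟨hJ κ hκ a k, hJ κ hκ b k⟩) (hAg a ha) (hAg b hb) (fun k => hf2 κ a b k)
  have hfin' : i ≤ lv (g (z' a)) (g (z' b)) ↔ κ ≤ lv (z κ a) (z κ b) := hfin
  rcases hne with ⟨h1, h2⟩ | ⟨h1, h2⟩
  · exact absurd (hfin'.1 h1) (not_le.2 h2)
  · exact absurd (hfin'.2 h2) (not_le.2 h1)

end names

end Pool.Agent.H55.CL.RL
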